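import Pool.Agent.R947.CQ.Stm

/-! # BND: trivial bound for the traces of ordered products -/

set_option autoImplicit false

open scoped BigOperators ComplexConjugate
open Finset Pool.Agent.TH235.PP

namespace CQ947

namespace BndAux

open scoped Matrix.Norms.L2Operator

lemma entry_le {X : Type} [Fintype X] [DecidableEq X] (M : Matrix X X ℂ) (i j : X) :
    ‖M i j‖ ≤ ‖M‖ := by
  have h := Matrix.l2_opNorm_mulVec M (EuclideanSpace.single j (1 : ℂ))
  rw [PiLp.norm_single, norm_one, mul_one] at h
  refine le_trans ?_ h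
  refine le_trans (le_of_eq ?_) (PiLp.norm_apply_le _ i)
  simp

lemma trace_le {X : Type} [Fintype X] [DecidableEq X] (M : Matrix X X ℂ) :
    ‖M.trace‖ ≤ Fintype.card X * ‖M‖ := by
  unfold Matrix.trace
  refine (norm_sum_le _ _).trans ?_
  refine (Finset.sum_le_sum (g := fun _ => ‖M‖) fun i _ => entry_le M i i).trans ?_
  rw [Finset.sum_const, nsmul_eq_mul, Finset.card_univ]

lemma op_le {X : Type} [Fintype X] [DecidableEq X] [Nonempty X] (c : ℝ) (hc : 0 ≤ c) :
    ∀ (n : ℕ) (z : Fin n → Matrix X X ℂ), (∀ i, ‖z i‖ ≤ c) → ‖op z‖ ≤ c ^ n := by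
  intro n
  induction n with
  | zero =>
    intro z _
    rw [op_zero]
    simp
  | succ n ih =>
    intro z h
    rw [op_succ, pow_succ']
    exact (Matrix.l2_opNorm_mul _ _).trans
      (mul_le_mul (h 0) (ih _ fun i => h i.succ) (norm_nonneg _) hc)

end BndAux

open scoped Matrix.Norms.L2Operator in
open BndAux in
theorem t_BND : S_BND := by
  intro d r X
  have hm1 : (1 : ℝ) ≤ max 1 (d : ℝ) := le_max_left _ _
  have hm2 : (1 : ℝ) ≤ max 1 (nJ X) := le_max_left _ _
  refine ⟨max 1 (d : ℝ) * max 1 (nJ X), one_le_mul_of_one_le_of_one_le hm1 hm2, ?_⟩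
  intro L _ en
  rcases isEmpty_or_nonempty (Site L → Fin d) with h | h
  · have h0 : Matrix.trace (op (fun b => (term X (en b) : TorOp d L))) = 0 := by
      unfold Matrix.trace
      exact Finset.sum_of_isEmpty _
    rw [h0, norm_zero]
    positivity
  · refine (trace_le _).trans ?_
    have h1 := op_le (max 1 (nJ X)) (by positivity) _ (fun b => (term X (en b) : TorOp d L))
      (fun b => (norm_term X (en b)).trans (le_max_right _ _))
    rw [mul_pow]
    refine mul_le_mul ?_ h1 (norm_nonneg _) (by positivity)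
    rw [Fintype.card_fun, Fintype.card_fin]
    push_cast
    exact pow_le_pow_left₀ (Nat.cast_nonneg d) (le_max_right _ _) _

end CQ947
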