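import Pool.Agent.R947.CQ.Stm

/-! # Project CQ: piece BRG (helper324) -/

set_option autoImplicit false

open scoped BigOperators ComplexConjugate
open Finset Pool.Agent.TH235.PP

namespace CQ947

namespace BRG324

theorem shInj {R L : ℕ} (hL : R ≤ L) (u : Site L) :
    Function.Injective (fun x : Fin R × Fin R => (sh u x : Site L)) := by
  intro x y hxy
  simp only [sh, Prod.mk.injEq, add_right_inj] at hxy
  obtain ⟨h1, h2⟩ := hxy
  have key : ∀ a b : Fin R, (((a : ℕ) : ZMod L) = ((b : ℕ) : ZMod L)) → a = b := by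
    intro a b hab
    rw [ZMod.natCast_eq_natCast_iff'] at hab
    rw [Nat.mod_eq_of_lt (lt_of_lt_of_le a.2 hL), Nat.mod_eq_of_lt (lt_of_lt_of_le b.2 hL)] at hab
    exact Fin.ext hab
  exact Prod.ext (key _ _ h1) (key _ _ h2)

end BRG324

open Classical in
theorem t_BRG : S_BRG := by
  intro d B h
  -- a bound
  obtain ⟨N, hN⟩ : ∃ N : ℕ, ∀ x ∈ B, x.1.natAbs ≤ N ∧ x.2.natAbs ≤ N := by
    refine ⟨B.sup (fun x => max x.1.natAbs x.2.natAbs), fun x hx => ?_⟩
    have := Finset.le_sup (f := fun x : ℤ × ℤ => max x.1.natAbs x.2.natAbs) hx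
    exact ⟨le_trans (le_max_left _ _) this, le_trans (le_max_right _ _) this⟩
  let e : B → Fin (2 * N + 1) × Fin (2 * N + 1) := fun x =>
    (⟨(x.1.1 + N).toNat, by have := (hN x.1 x.2).1; omega⟩,
     ⟨(x.1.2 + N).toNat, by have := (hN x.1 x.2).2; omega⟩)
  let h' : BoxOp d (2 * N + 1) := fun s t =>
    if ∀ y, (∀ x : B, e x ≠ y) → s y = t y then h (fun x => s (e x)) (fun x => t (e x)) else 0
  refine ⟨2 * N, (-(N : ℤ), -(N : ℤ)), h', 2 * N + 1, ?_, ?_⟩
  · intro hh
    ext s t
    rw [Matrix.conjTranspose_apply]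
    by_cases hc : ∀ y, (∀ x : B, e x ≠ y) → s y = t y
    · have hc' : ∀ y, (∀ x : B, e x ≠ y) → t y = s y := fun y hy => (hc y hy).symm
      simp only [h', if_pos hc, if_pos hc']
      exact congrFun (congrFun hh _) _
    · have hc' : ¬ ∀ y, (∀ x : B, e x ≠ y) → t y = s y := fun hh' => hc fun y hy => (hh' y hy).symm
      simp only [h', if_neg hc, if_neg hc', star_zero]
  · intro L _ hL u
    have hse : ∀ x : B, (sh (u + (((-(N : ℤ) : ℤ) : ZMod L), ((-(N : ℤ) : ℤ) : ZMod L))) (e x) : Site L)
        = Pool.Agent.H4R2.toTorus L x + u := by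
      intro x
      have h1 := (hN x.1 x.2).1
      have h2 := (hN x.1 x.2).2
      have e1 : (((x.1.1 + N).toNat : ℕ) : ZMod L) = (x.1.1 : ZMod L) + (N : ZMod L) := by
        have : (((x.1.1 + N).toNat : ℕ) : ℤ) = x.1.1 + N := Int.toNat_of_nonneg (by omega)
        rw [← Int.cast_natCast (R := ZMod L), this]
        push_cast
        rfl
      have e2 : (((x.1.2 + N).toNat : ℕ) : ZMod L) = (x.1.2 : ZMod L) + (N : ZMod L) := by
        have : (((x.1.2 + N).toNat : ℕ) : ℤ) = x.1.2 + N := Int.toNat_of_nonneg (by omega)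
        rw [← Int.cast_natCast (R := ZMod L), this]
        push_cast
        rfl
      refine Prod.ext ?_ ?_
      · simp only [sh, Pool.Agent.H4R2.toTorus, e, Prod.fst_add]
        rw [e1]; push_cast; ring
      · simp only [sh, Pool.Agent.H4R2.toTorus, e, Prod.snd_add]
        rw [e2]; push_cast; ring
    have hinj := BRG324.shInj hL (u + (((-(N : ℤ) : ℤ) : ZMod L), ((-(N : ℤ) : ℤ) : ZMod L)))
    ext s t
    simp only [Pool.Agent.H4R2.term, term]
    set U : Site L := u + (((-(N : ℤ) : ℤ) : ZMod L), ((-(N : ℤ) : ℤ) : ZMod L)) with hU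
    by_cases hA : ∀ v : Site L, (∀ x : B, Pool.Agent.H4R2.toTorus L x + u ≠ v) → s v = t v
    · have hB1 : ∀ v : Site L, (∀ x : Fin (2 * N + 1) × Fin (2 * N + 1), sh U x ≠ v) → s v = t v := by
        intro v hv
        exact hA v fun x => by rw [← hse x]; exact hv _
      have hB2 : ∀ y, (∀ x : B, e x ≠ y) → s (sh U y) = t (sh U y) := by
        intro y hy
        apply hA
        intro x hx
        rw [← hse x] at hx
        exact hy x (hinj hx)
      rw [if_pos hA, if_pos hB1]
      simp only [h']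
      rw [if_pos hB2]
      simp only [hse]
    · rw [if_neg hA]
      split_ifs with hB1
      · simp only [h']
        rw [if_neg]
        intro hB2
        apply hA
        intro v hv
        by_cases hv' : ∃ y : Fin (2 * N + 1) × Fin (2 * N + 1), sh U y = v
        · obtain ⟨y, rfl⟩ := hv'
          apply hB2
          intro x hx
          apply hv x
          rw [← hse x, hx]
        · push Not at hv'
          exact hB1 v hv'
      · rfl

end CQ947
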