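import Pool.Agent.R947.CQ.Stm

/-! Piece CQ-COL (second copy, helper955): proper colourings exist. -/

set_option autoImplicit false

open scoped BigOperators ComplexConjugate
open Finset Pool.Agent.TH235.PP

namespace CQ947

theorem t_COL : S_COL := by
  classical
  intro r
  refine ⟨Fintype.card ((Fin r × Fin r) × (Fin r × Fin r)), ?_⟩
  intro L _
  let N : Site L → Finset (Site L) := fun u =>
    (Finset.univ : Finset ((Fin r × Fin r) × (Fin r × Fin r))).image
      (fun p => (sh u p.1 : Site L) - sh 0 p.2)
  have hNc : ∀ u, (N u).card ≤ Fintype.card ((Fin r × Fin r) × (Fin r × Fin r)) := by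
    intro u
    exact Finset.card_image_le.trans (le_of_eq Finset.card_univ)
  have hN : ∀ (u v : Site L) (x y : Fin r × Fin r), (sh u x : Site L) = sh v y → v ∈ N u := by
    intro u v x y h
    refine Finset.mem_image.2 ⟨(x, y), Finset.mem_univ _, ?_⟩
    simp only
    rw [h]
    ext <;> simp [sh]
  have key : ∀ T : Finset (Site L),
      ∃ c : Site L → Fin (Fintype.card ((Fin r × Fin r) × (Fin r × Fin r)) + 1),
        ∀ u ∈ T, ∀ v ∈ T, u ≠ v → (∃ x y : Fin r × Fin r, (sh u x : Site L) = sh v y) →
          c u ≠ c v := by
    intro T
    induction T using Finset.induction_on with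
    | empty => exact ⟨fun _ => 0, by simp⟩
    | insert a T ha ih =>
      obtain ⟨c, hc⟩ := ih
      have hex : ∃ k : Fin (Fintype.card ((Fin r × Fin r) × (Fin r × Fin r)) + 1),
          k ∉ (N a).image c := by
        by_contra hcon
        push Not at hcon
        have h1 : (Finset.univ : Finset (Fin (Fintype.card
            ((Fin r × Fin r) × (Fin r × Fin r)) + 1))) ⊆ (N a).image c := fun k _ => hcon k
        have h2 := Finset.card_le_card h1
        rw [Finset.card_univ, Fintype.card_fin] at h2
        have h3 := (Finset.card_image_le (s := N a) (f := c)).trans (hNc a)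
        omega
      obtain ⟨k, hk⟩ := hex
      refine ⟨Function.update c a k, ?_⟩
      intro u hu v hv huv hm
      rw [Finset.mem_insert] at hu hv
      rcases eq_or_ne u a with h1 | h1
      · rcases eq_or_ne v a with h2 | h2
        · exact absurd (h1.trans h2.symm) huv
        · rw [h1, Function.update_self, Function.update_of_ne h2]
          obtain ⟨x, y, hxy⟩ := hm
          intro hcon
          apply hk
          rw [hcon]
          exact Finset.mem_image_of_mem _ (hN a v x y (h1 ▸ hxy))
      · rcases eq_or_ne v a with h2 | h2
        · rw [h2, Function.update_self, Function.update_of_ne h1]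
          obtain ⟨x, y, hxy⟩ := hm
          intro hcon
          apply hk
          rw [← hcon]
          exact Finset.mem_image_of_mem _ (hN a u y x (h2 ▸ hxy.symm))
        · rw [Function.update_of_ne h1, Function.update_of_ne h2]
          exact hc u (hu.resolve_left h1) v (hv.resolve_left h2) huv hm
  obtain ⟨c, hc⟩ := key Finset.univ
  exact ⟨c, fun u v huv hm => hc u (Finset.mem_univ _) v (Finset.mem_univ _) huv hm⟩

end CQ947
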