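import Pool.Agent.R947.CQ.Stm

/-! # CQ-DIS: operators on disjoint boxes commute -/

set_option autoImplicit false

open scoped BigOperators ComplexConjugate
open Finset Pool.Agent.TH235.PP

namespace CQ947

open SH947.SpcAux

open Classical in
lemma dis427 {d a c L : ℕ} [NeZero L] (A : BoxOp d a) (C : BoxOp d c) (u v : Site L) (ha : a ≤ L)
    (h : ∀ (x : Fin a × Fin a) (y : Fin c × Fin c), (sh u x : Site L) ≠ sh v y)
    (s t : Site L → Fin d) :
    ((term A u : TorOp d L) * term C v) s t =
      if ∀ x : Site L, (∀ y : Fin a × Fin a, sh u y ≠ x) → (∀ y : Fin c × Fin c, sh v y ≠ x) →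
          s x = t x then
        A (fun y => s (sh u y)) (fun y => t (sh u y)) *
          C (fun y => s (sh v y)) (fun y => t (sh v y)) else 0 := by
  rw [Matrix.mul_apply]
  set r0 : Site L → Fin d := ex u s (fun x => t (sh u x)) with hr0
  have r0in : ∀ x : Fin a × Fin a, r0 (sh u x) = t (sh u x) := fun x => ex_in ha u s _ x
  have r0out : ∀ w, (∀ x : Fin a × Fin a, sh u x ≠ w) → r0 w = s w := fun w hw =>
    ex_out u s _ w hw
  rw [Finset.sum_eq_single r0]
  · have e1 : (term A u : TorOp d L) s r0 = A (fun x => s (sh u x)) (fun x => t (sh u x)) := by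
      unfold term
      rw [if_pos (fun w hw => (r0out w hw).symm)]
      congr 1
      funext x
      exact r0in x
    have e3 : (∀ x : Site L, (∀ y : Fin c × Fin c, sh v y ≠ x) → r0 x = t x) ↔
        (∀ x : Site L, (∀ y : Fin a × Fin a, sh u y ≠ x) → (∀ y : Fin c × Fin c, sh v y ≠ x) →
          s x = t x) := by
      constructor
      · intro H x hx hx'
        rw [← r0out x hx]
        exact H x hx'
      · intro H x hx
        by_cases hu : ∃ y : Fin a × Fin a, sh u y = x
        · obtain ⟨y, rfl⟩ := hu
          exact r0in y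
        · push Not at hu
          rw [r0out x hu]
          exact H x hu hx
    have e2 : (fun x : Fin c × Fin c => r0 (sh v x)) = fun x => s (sh v x) := by
      funext x
      exact r0out _ fun y => h y x
    rw [e1]
    unfold term
    rw [e2]
    by_cases H : ∀ x : Site L, (∀ y : Fin a × Fin a, sh u y ≠ x) →
        (∀ y : Fin c × Fin c, sh v y ≠ x) → s x = t x
    · rw [if_pos H, if_pos (e3.2 H)]
    · rw [if_neg H, if_neg (fun H' => H (e3.1 H')), mul_zero]
  · intro q _ hq
    by_contra hne
    have n1 := left_ne_zero_of_mul hne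
    have n2 := right_ne_zero_of_mul hne
    have a1 : ∀ w, (∀ x : Fin a × Fin a, sh u x ≠ w) → s w = q w := by
      by_contra hcon
      apply n1
      unfold term
      rw [if_neg hcon]
    have a2 : ∀ w, (∀ x : Fin c × Fin c, sh v x ≠ w) → q w = t w := by
      by_contra hcon
      apply n2
      unfold term
      rw [if_neg hcon]
    apply hq
    funext x
    by_cases hu : ∃ y : Fin a × Fin a, sh u y = x
    · obtain ⟨y, rfl⟩ := hu
      rw [r0in y]
      exact a2 _ fun z hz => h y z hz.symm
    · push Not at hu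
      rw [r0out x hu]
      exact (a1 x hu).symm
  · intro h
    exact absurd (Finset.mem_univ _) h

theorem t_DIS : S_DIS := by
  classical
  intro d a c L _ A C u v ha hc h
  ext s t
  rw [dis427 A C u v ha h s t, dis427 C A v u hc (fun x y e => h y x e.symm) s t]
  have e : (∀ x : Site L, (∀ y : Fin a × Fin a, sh u y ≠ x) → (∀ y : Fin c × Fin c, sh v y ≠ x) →
      s x = t x) ↔ (∀ x : Site L, (∀ y : Fin c × Fin c, sh v y ≠ x) →
        (∀ y : Fin a × Fin a, sh u y ≠ x) → s x = t x) :=
    ⟨fun H x h1 h2 => H x h2 h1, fun H x h1 h2 => H x h2 h1⟩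
  by_cases H : ∀ x : Site L, (∀ y : Fin a × Fin a, sh u y ≠ x) →
      (∀ y : Fin c × Fin c, sh v y ≠ x) → s x = t x
  · rw [if_pos H, if_pos (e.1 H), mul_comm]
  · rw [if_neg H, if_neg (fun H' => H (e.2 H'))]

end CQ947
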