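import Pool.Agent.R947.CQ.Stm

/-! # Project CQ (helper947), piece EMB (helper207): small boxes in larger boxes -/

set_option autoImplicit false

open scoped BigOperators ComplexConjugate
open Finset Pool.Agent.TH235.PP

namespace CQ947

namespace EmbAux

lemma shInj {R L : ℕ} [NeZero L] (hR : R ≤ L) (u : Site L) :
    Function.Injective (fun x : Fin R × Fin R => sh u x) := by
  have key : ∀ a b : Fin R, (((a : ℕ) : ZMod L) = ((b : ℕ) : ZMod L)) → a = b := by
    intro a b hab
    rw [ZMod.natCast_eq_natCast_iff', Nat.mod_eq_of_lt (lt_of_lt_of_le a.2 hR),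
      Nat.mod_eq_of_lt (lt_of_lt_of_le b.2 hR)] at hab
    exact Fin.ext hab
  intro x y hxy
  simp only [sh, Prod.mk.injEq, add_right_inj] at hxy
  exact Prod.ext (key _ _ hxy.1) (key _ _ hxy.2)

/-- the sub-box at `x` -/
def jm {a r : ℕ} (x : ℕ × ℕ) (h1 : x.1 + a ≤ r) (h2 : x.2 + a ≤ r) (y : Fin a × Fin a) :
    Fin r × Fin r :=
  (⟨x.1 + y.1, by have := y.1.2; omega⟩, ⟨x.2 + y.2, by have := y.2.2; omega⟩)

lemma sh_jm {a r L : ℕ} (x : ℕ × ℕ) (h1 : x.1 + a ≤ r) (h2 : x.2 + a ≤ r) (u : Site L)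
    (y : Fin a × Fin a) :
    sh u (jm x h1 h2 y) = sh (u + ((x.1 : ZMod L), (x.2 : ZMod L))) y := by
  simp only [sh, jm, Prod.fst_add, Prod.snd_add, Nat.cast_add, add_assoc]

open Classical in
/-- the operator on the larger box -/
noncomputable def big {d a r : ℕ} (A : BoxOp d a) (x : ℕ × ℕ) (h1 : x.1 + a ≤ r)
    (h2 : x.2 + a ≤ r) : BoxOp d r := fun s t =>
  if ∀ z : Fin r × Fin r, (∀ y, jm x h1 h2 y ≠ z) → s z = t z then
    A (fun y => s (jm x h1 h2 y)) (fun y => t (jm x h1 h2 y)) else 0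

end EmbAux

open EmbAux in
theorem t_EMB : S_EMB := by
  classical
  intro d a r A x h1 h2
  refine ⟨big A x h1 h2, ?_⟩
  intro L _ hL u
  ext s t
  unfold term big
  simp only [sh_jm]
  by_cases hC : ∀ v, (∀ y : Fin a × Fin a,
      sh (u + ((x.1 : ZMod L), (x.2 : ZMod L))) y ≠ v) → s v = t v
  · have hC1 : ∀ v, (∀ z : Fin r × Fin r, sh u z ≠ v) → s v = t v := by
      intro v hv
      apply hC
      intro y
      rw [← sh_jm x h1 h2 u y]
      exact hv _
    have hC2 : ∀ z : Fin r × Fin r, (∀ y, jm x h1 h2 y ≠ z) → s (sh u z) = t (sh u z) := by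
      intro z hz
      apply hC
      intro y hy
      rw [← sh_jm x h1 h2 u y] at hy
      exact hz y (shInj hL u hy)
    rw [if_pos hC1, if_pos hC2, if_pos hC]
  · rw [if_neg hC]
    by_cases hC1 : ∀ v, (∀ z : Fin r × Fin r, sh u z ≠ v) → s v = t v
    · rw [if_pos hC1, if_neg]
      intro hC2
      apply hC
      intro v hv
      by_cases hz : ∃ z : Fin r × Fin r, sh u z = v
      · obtain ⟨z, rfl⟩ := hz
        apply hC2
        intro y hy
        apply hv y
        rw [← sh_jm x h1 h2 u y, hy]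
      · push Not at hz
        exact hC1 v hz
    · rw [if_neg hC1]

end CQ947
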