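import Pool.Agent.R947.CQ.Stm

/-! # ENU (second version, helper98) -/

set_option autoImplicit false

open scoped BigOperators ComplexConjugate
open Finset Pool.Agent.TH235.PP

namespace CQ947

namespace EnuAux

open SH947.SpcAux

open Classical in
lemma prodList {d r L : ℕ} [NeZero L] (hR : r ≤ L) (X : BoxOp d r) (l : List (Site L))
    (hd : l.Pairwise (fun u v => ∀ x y : Fin r × Fin r, (sh u x : Site L) ≠ sh v y))
    (t : Site L → Fin d) : ∀ s : Site L → Fin d,
    ((l.map (fun u => (term X u : TorOp d L))).prod : TorOp d L) s t =
      if (∀ x, (∀ u ∈ l, ∀ y : Fin r × Fin r, sh u y ≠ x) → s x = t x) then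
        (l.map (fun u => X (fun y => s (sh u y)) (fun y => t (sh u y)))).prod else 0 := by
  induction l with
  | nil =>
    intro s
    simp only [List.map_nil, List.prod_nil, Matrix.one_apply]
    by_cases h : s = t
    · subst h; simp
    · rw [if_neg h, if_neg]
      intro h'
      apply h
      funext x
      exact h' x (by simp)
  | cons u l ih =>
    intro s
    rw [List.pairwise_cons] at hd
    have ih' := ih hd.2
    rw [List.map_cons, List.prod_cons, Matrix.mul_apply]
    set m0 : Site L → Fin d := ex u s (fun y => t (sh u y)) with hm0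
    have hin : ∀ y : Fin r × Fin r, m0 (sh u y) = t (sh u y) := fun y => ex_in hR u s _ y
    have hout : ∀ x, (∀ y : Fin r × Fin r, sh u y ≠ x) → m0 x = s x :=
      fun x hx => ex_out u s _ x hx
    rw [Finset.sum_eq_single m0]
    · have e1 : (term X u : TorOp d L) s m0 = X (fun y => s (sh u y)) (fun y => t (sh u y)) := by
        unfold term
        rw [if_pos]
        · congr 1
          funext y
          exact hin y
        · intro v hv
          exact (hout v hv).symm
      rw [e1, ih' m0, List.map_cons, List.prod_cons]
      have e2 : (∀ x, (∀ v ∈ l, ∀ y : Fin r × Fin r, sh v y ≠ x) → m0 x = t x) ↔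
          (∀ x, (∀ v ∈ u :: l, ∀ y : Fin r × Fin r, sh v y ≠ x) → s x = t x) := by
        constructor
        · intro h x hx
          rw [← hout x (hx u (by simp))]
          exact h x (fun v hv => hx v (by simp [hv]))
        · intro h x hx
          by_cases hxu : ∃ y : Fin r × Fin r, sh u y = x
          · obtain ⟨y, rfl⟩ := hxu
            exact hin y
          · push Not at hxu
            rw [hout x hxu]
            apply h
            intro v hv
            rcases List.mem_cons.1 hv with rfl | hv
            · exact hxu
            · exact hx v hv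
      have e3 : l.map (fun v => X (fun y => m0 (sh v y)) (fun y => t (sh v y))) =
          l.map (fun v => X (fun y => s (sh v y)) (fun y => t (sh v y))) := by
        refine List.map_congr_left ?_
        intro v hv
        congr 1
        funext y
        exact hout _ (fun z => hd.1 v hv z y)
      rw [e3]
      by_cases hcond : ∀ x, (∀ v ∈ u :: l, ∀ y : Fin r × Fin r, sh v y ≠ x) → s x = t x
      · rw [if_pos hcond, if_pos (e2.2 hcond)]
      · rw [if_neg hcond, if_neg (fun hh => hcond (e2.1 hh)), mul_zero]
    · intro m _ hm
      by_contra hne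
      have h1 : (term X u : TorOp d L) s m ≠ 0 := left_ne_zero_of_mul hne
      have h2 := right_ne_zero_of_mul hne
      rw [ih' m] at h2
      have h3 : ∀ v, (∀ x : Fin r × Fin r, sh u x ≠ v) → s v = m v := by
        by_contra hh
        apply h1
        unfold term
        rw [if_neg hh]
      have h4 : ∀ x, (∀ v ∈ l, ∀ y : Fin r × Fin r, sh v y ≠ x) → m x = t x := by
        by_contra hh
        exact h2 (if_neg hh)
      apply hm
      funext x
      by_cases hxu : ∃ y : Fin r × Fin r, sh u y = x
      · obtain ⟨y, rfl⟩ := hxu
        rw [hin y]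
        apply h4
        intro v hv z hz
        exact hd.1 v hv y z hz.symm
      · push Not at hxu
        rw [hout x hxu]
        exact (h3 x hxu).symm
    · intro h; exact absurd (Finset.mem_univ _) h

lemma ofFn_list {α β : Type} (l : List α) (f : α → β) (N : ℕ) (hN : N = l.length) :
    List.ofFn (fun b : Fin N => f (l.get (Fin.cast hN b))) = l.map f := by
  subst hN
  have h1 : List.ofFn (fun b : Fin l.length => l.get b) = l := List.ofFn_get l
  conv_rhs => rw [← h1]
  rw [List.map_ofFn]
  rfl

end EnuAux

open EnuAux in
theorem t_ENU : S_ENU := by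
  classical
  intro d r q L _ c hR hc
  set lk : Fin (q + 1) → List (Site L) := fun k => (Finset.univ.filter (fun u => c u = k)).toList
    with hlk
  have hmem : ∀ k u, u ∈ lk k ↔ c u = k := by
    intro k u
    rw [hlk]
    simp
  set l : List (Site L) := (List.ofFn lk).flatten with hl
  have hall : ∀ u, u ∈ l := by
    intro u
    rw [hl, List.mem_flatten]
    exact ⟨lk (c u), (List.mem_ofFn' _ _).2 ⟨c u, rfl⟩, (hmem _ _).2 rfl⟩
  have hnd : l.Nodup := by
    rw [hl, List.nodup_flatten]
    constructor
    · intro l' hl'
      obtain ⟨k, rfl⟩ := (List.mem_ofFn' _ _).1 hl'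
      exact Finset.nodup_toList _
    · rw [List.pairwise_ofFn]
      intro i j hij
      rw [List.disjoint_left]
      intro u hu hu'
      rw [hmem] at hu hu'
      exact hij.ne (hu.symm.trans hu')
  have hlen : l.length = Fintype.card (Site L) := by
    rw [← List.toFinset_card_of_nodup hnd]
    congr 1
    ext u
    simp [hall u]
  refine ⟨(finCongr hlen.symm).trans (List.Nodup.getEquivOfForallMemList l hnd hall), ?_⟩
  intro X
  have h1 : (List.ofFn (fun b : Fin (Fintype.card (Site L)) => (term X
      (((finCongr hlen.symm).trans (List.Nodup.getEquivOfForallMemList l hnd hall)) b) :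
        TorOp d L))) = l.map (fun u => (term X u : TorOp d L)) :=
    ofFn_list l (fun u => (term X u : TorOp d L)) _ hlen.symm
  unfold op
  rw [h1, hl, List.map_flatten, List.prod_flatten, List.map_map, List.map_ofFn]
  congr 1
  congr 1
  funext k
  show ((lk k).map (fun u => (term X u : TorOp d L))).prod = lay X c k
  ext s t
  rw [prodList hR X (lk k) ?_ t s]
  · unfold lay
    have e1 : (∀ x, (∀ u ∈ lk k, ∀ y : Fin r × Fin r, sh u y ≠ x) → s x = t x) ↔
        (∀ x : Site L, (∀ u : Site L, c u = k → ∀ y : Fin r × Fin r, sh u y ≠ x) → s x = t x) := by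
      simp only [hmem]
    have e2 : ((lk k).map (fun u => X (fun y => s (sh u y)) (fun y => t (sh u y)))).prod =
        ∏ u : Site L, (if c u = k then X (fun y => s (sh u y)) (fun y => t (sh u y)) else 1) := by
      rw [hlk]
      rw [Finset.prod_map_toList, Finset.prod_filter]
    rw [e2]
    by_cases hcond : ∀ x, (∀ u ∈ lk k, ∀ y : Fin r × Fin r, sh u y ≠ x) → s x = t x
    · rw [if_pos hcond, if_pos (e1.1 hcond)]
    · rw [if_neg hcond, if_neg (fun hh => hcond (e1.2 hh))]
  · have hnd' : (lk k).Nodup := Finset.nodup_toList _
    refine List.Pairwise.imp_of_mem ?_ hnd'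
    intro u v hu hv huv x y hxy
    rw [hmem] at hu hv
    exact hc u v huv ⟨x, y, hxy⟩ (hu.trans hv.symm)

end CQ947
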