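import Pool.Agent.R947.CQ.Stm

/-! # FOL (second attempt, helper160) -/

set_option autoImplicit false

open scoped BigOperators ComplexConjugate
open Finset Pool.Agent.TH235.PP
open Pool.Agent.TH64.PerNet (scal Followed)

namespace CQ947

open SH947 (ipr)

namespace FolAux

theorem scal_smul' {K : Type} [Fintype K] (c : ℂ) (W : K → K → K → K → ℂ) (L : ℕ) [NeZero L] :
    scal (fun l r u n => c * W l r u n) L = c ^ Fintype.card (Site L) * scal W L := by
  unfold scal
  simp only [Finset.prod_mul_distrib, Finset.prod_const, Finset.card_univ, Finset.mul_sum]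

theorem ham_eig {d R L : ℕ} [NeZero L] (h : BoxOp d R) (φ : (Site L → Fin d) → ℂ) (μ : ℂ)
    (hφ : ∀ u : Site L, (term h u : TorOp d L).mulVec φ = μ • φ) :
    (ham h L).mulVec φ = ((Fintype.card (Site L) : ℂ) * μ) • φ := by
  unfold ham
  rw [Matrix.sum_mulVec]
  simp only [hφ, Finset.sum_const, Finset.card_univ]
  rw [← Nat.cast_smul_eq_nsmul ℂ, smul_smul]

theorem card_ge (L : ℕ) [NeZero L] : L ≤ Fintype.card (Site L) := by
  rw [Fintype.card_prod, ZMod.card]
  exact Nat.le_mul_self L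

theorem ne_zero_of_normSq {S : Type} [Fintype S] (ψ : S → ℂ) (h : normSq ψ = 1) : ψ ≠ 0 := by
  rintro rfl
  simp [normSq] at h

end FolAux

open FolAux in
theorem t_FOL (hR : SH947.S_TRI) (hO : S_OPS) (hT : S_TRE) (hB : S_BND) (hN : S_NET) : S_FOL := by
  classical
  intro d R' h ψ L₀ hF k O
  obtain ⟨hherm, hfam⟩ := hF
  obtain ⟨J, fJ, en, val, X, hinj, hX⟩ := hO d R' k h O hherm
  obtain ⟨D, LN, W, hW⟩ := hN d (k + 2 * R')
  have hBj : ∀ j : J, ∃ C : ℝ, 1 ≤ C ∧ ∀ (L : ℕ) [NeZero L]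
      (e : Fin (Fintype.card (Site L)) ≃ Site L),
      ‖Matrix.trace (op (fun b => (term (X j) (e b) : TorOp d L)))‖ ≤
        C ^ Fintype.card (Site L) := fun j => hB d _ (X j)
  choose C hC1 hC using hBj
  set C₀ : ℝ := 1 + ∑ j, C j with hC₀
  have hCj : ∀ j, C j ≤ C₀ := by
    intro j
    have h1 : C j ≤ ∑ j, C j :=
      Finset.single_le_sum (f := C) (fun i _ => zero_le_one.trans (hC1 i)) (Finset.mem_univ j)
    linarith
  have hC₀1 : 1 ≤ C₀ := by
    have : 0 ≤ ∑ j, C j := Finset.sum_nonneg fun i _ => zero_le_one.trans (hC1 i)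
    linarith
  set K : ℝ := 2 * C₀ with hK
  have hK1 : 1 ≤ K := by linarith
  have hK0 : 0 < K := by linarith
  let rk : J → ℕ := fun j => (univ.filter (fun j' => en j < en j')).card
  have hrk : ∀ i j, en i < en j → rk j + 1 ≤ rk i := by
    intro i j hij
    apply Finset.card_lt_card
    refine ⟨?_, ?_⟩
    · intro x hx
      rw [Finset.mem_filter] at hx ⊢
      exact ⟨hx.1, hij.trans hx.2⟩
    · intro hsub
      have : j ∈ univ.filter (fun j' => en j < en j') :=
        hsub (Finset.mem_filter.mpr ⟨Finset.mem_univ _, hij⟩)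
      exact lt_irrefl _ (Finset.mem_filter.mp this).2
  let W' : J → Fin D → Fin D → Fin D → Fin D → ℂ := fun j l r u n =>
    ((K ^ rk j : ℝ) : ℂ) * W (X j) l r u n
  have hW' : ∀ (j : J) (L : ℕ) [NeZero L], scal (W' j) L =
      ((K ^ rk j : ℝ) : ℂ) ^ Fintype.card (Site L) * scal (W (X j)) L := fun j L _ =>
    scal_smul' _ _ L
  set L₂ : ℕ := max L₀ (max (k + 2 * R' + 1) LN) with hL₂
  have key : ∀ (L : ℕ) [NeZero L], L₂ ≤ L → ∃ j₀ : J,
      (∀ u : Site L, ipr (ψ L) ((term O u : TorOp d L).mulVec (ψ L)) = val j₀) ∧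
      scal (W' j₀) L ≠ 0 ∧
      ∀ j, j ≠ j₀ → ‖scal (W' j) L‖ ≤ (1 / 2 : ℝ) ^ L * ‖scal (W' j₀) L‖ := by
    intro L _ hL
    have hLa : L₀ ≤ L := (le_max_left _ _).trans hL
    have hLb : k + 2 * R' + 1 ≤ L := ((le_max_left _ _).trans (le_max_right _ _)).trans hL
    have hLc : LN ≤ L := ((le_max_right _ _).trans (le_max_right _ _)).trans hL
    obtain ⟨hcomm, hnorm, E, hE, huniq, hmin⟩ := hfam L hLa
    have hψ0 : ψ L ≠ 0 := ne_zero_of_normSq _ hnorm
    obtain ⟨μ, hμ⟩ := hR d (R' + 1) L h hcomm (ψ L) E hψ0 hE huniq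
    obtain ⟨hx1, hx2, hx3⟩ := hX L hLb hcomm
    obtain ⟨j₀, hj₀, hval, hact⟩ := hx3 (ψ L) μ E hnorm hμ hE huniq
    set N := Fintype.card (Site L) with hNdef
    have hN1 : L ≤ N := card_ge L
    have hL0 : 0 < L := Nat.pos_of_ne_zero (NeZero.ne L)
    have hN0 : 0 < N := lt_of_lt_of_le hL0 hN1
    have hNr : (0 : ℝ) < N := by exact_mod_cast hN0
    have hEN : E = N * en j₀ := by
      have h1 := ham_eig h (ψ L) μ hμ
      rw [hE, ← hj₀] at h1
      obtain ⟨s, hs⟩ := Function.ne_iff.mp hψ0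
      have h2 := congrFun h1 s
      simp only [Pi.smul_apply, smul_eq_mul] at h2
      have h3 := mul_right_cancel₀ hs h2
      exact_mod_cast h3
    obtain ⟨m, e, hm, hs⟩ := hW L hLc
    have hmr : (0 : ℝ) < m := by exact_mod_cast hm
    -- the traces
    have ht0 : scal (W (X j₀)) L = (m : ℂ) := by
      rw [hs]
      have : ∀ i, Matrix.trace (op (fun b => (term (X j₀) (e i b) : TorOp d L))) = 1 := by
        intro i
        have h1 := (hT d (R' + 1) (k + 2 * R' + 1) L h (X j₀) (en j₀ : ℂ) (e i)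
          (fun u v => hx1 j₀ u v) (fun u => hx2 j₀ u)).2 (ψ L) 1 hψ0 (by
            intro φ hφ
            apply huniq
            have h2 := ham_eig h φ _ hφ
            rw [h2, hEN]
            push_cast
            rfl) (by
            intro u
            have := hact j₀ u rfl
            simpa using this)
        rw [h1, one_pow]
      simp [this]
    have htle : ∀ j, j ≠ j₀ → en j ≤ en j₀ → scal (W (X j)) L = 0 := by
      intro j hj hle
      rw [hs]
      refine Finset.sum_eq_zero fun i _ => ?_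
      rcases lt_or_eq_of_le hle with hlt | heq
      · apply (hT d (R' + 1) (k + 2 * R' + 1) L h (X j) (en j : ℂ) (e i)
          (fun u v => hx1 j u v) (fun u => hx2 j u)).1
        intro φ hφ
        by_contra hne
        have h2 := ham_eig h φ _ hφ
        have h3 := hmin (N * en j) φ hne (by rw [h2]; push_cast; rfl)
        rw [hEN] at h3
        have := mul_lt_mul_of_pos_left hlt hNr
        linarith
      · have h1 := (hT d (R' + 1) (k + 2 * R' + 1) L h (X j) (en j : ℂ) (e i)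
          (fun u v => hx1 j u v) (fun u => hx2 j u)).2 (ψ L) 0 hψ0 (by
            intro φ hφ
            apply huniq
            have h2 := ham_eig h φ _ hφ
            rw [h2, hEN, heq]
            push_cast
            rfl) (by
            intro u
            have := hact j u heq
            rw [if_neg hj] at this
            exact this)
        rw [h1, zero_pow hN0.ne']
    have htgt : ∀ j, ‖scal (W (X j)) L‖ ≤ m * C₀ ^ N := by
      intro j
      rw [hs]
      refine (norm_sum_le _ _).trans ?_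
      calc ∑ i, ‖Matrix.trace (op (fun b => (term (X j) (e i b) : TorOp d L)))‖
          ≤ ∑ _i : Fin m, C₀ ^ N := by
            refine Finset.sum_le_sum fun i _ => (hC j L (e i)).trans ?_
            exact pow_le_pow_left₀ (zero_le_one.trans (hC1 j)) (hCj j) _
        _ = m * C₀ ^ N := by simp
    refine ⟨j₀, hval, ?_, ?_⟩
    · rw [hW', ht0]
      refine mul_ne_zero (pow_ne_zero _ ?_) ?_
      · have : (K ^ rk j₀ : ℝ) ≠ 0 := (pow_pos hK0 _).ne'
        exact_mod_cast this
      · exact_mod_cast hm.ne'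
    · intro j hj
      rcases le_or_gt (en j) (en j₀) with hle | hgt
      · rw [hW', htle j hj hle, mul_zero, norm_zero]
        positivity
      · rw [hW', hW', ht0, norm_mul, norm_mul, norm_pow, norm_pow, Complex.norm_real,
          Complex.norm_real, Real.norm_of_nonneg (pow_pos hK0 _).le,
          Real.norm_of_nonneg (pow_pos hK0 _).le, Complex.norm_natCast]
        have h1 := hrk j₀ j hgt
        have h2 : K ^ rk j * C₀ ≤ K ^ rk j₀ * (1 / 2) := by
          have h3 : K ^ (rk j + 1) ≤ K ^ rk j₀ := pow_le_pow_right₀ hK1 h1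
          rw [pow_succ] at h3
          have h4 : K ^ rk j * K = 2 * (K ^ rk j * C₀) := by rw [hK]; ring
          linarith
        have h5 : (K ^ rk j * C₀) ^ N ≤ (K ^ rk j₀ * (1 / 2)) ^ N :=
          pow_le_pow_left₀ (by positivity) h2 _
        have h6 : (1 / 2 : ℝ) ^ N ≤ (1 / 2) ^ L :=
          pow_le_pow_of_le_one (by norm_num) (by norm_num) hN1
        calc (K ^ rk j) ^ N * ‖scal (W (X j)) L‖ ≤ (K ^ rk j) ^ N * (m * C₀ ^ N) :=
              mul_le_mul_of_nonneg_left (htgt j) (by positivity)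
          _ = m * (K ^ rk j * C₀) ^ N := by rw [mul_pow]; ring
          _ ≤ m * (K ^ rk j₀ * (1 / 2)) ^ N := mul_le_mul_of_nonneg_left h5 hmr.le
          _ = (1 / 2) ^ N * ((K ^ rk j₀) ^ N * m) := by rw [mul_pow]; ring
          _ ≤ (1 / 2) ^ L * ((K ^ rk j₀) ^ N * m) :=
              mul_le_mul_of_nonneg_right h6 (by positivity)
  -- the choice of the label
  obtain ⟨jj, -⟩ := @key (L₂ + 1) ⟨Nat.succ_ne_zero _⟩ (Nat.le_succ _)
  have hall : ∀ L : ℕ, ∃ j₀ : J, ∀ [NeZero L], L₂ ≤ L →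
      (∀ u : Site L, ipr (ψ L) ((term O u : TorOp d L).mulVec (ψ L)) = val j₀) ∧
      scal (W' j₀) L ≠ 0 ∧
      ∀ j, j ≠ j₀ → ‖scal (W' j) L‖ ≤ (1 / 2 : ℝ) ^ L * ‖scal (W' j₀) L‖ := by
    intro L
    by_cases hL : L ≠ 0 ∧ L₂ ≤ L
    · haveI : NeZero L := ⟨hL.1⟩
      obtain ⟨j₀, hj₀⟩ := key L hL.2
      exact ⟨j₀, fun _ => hj₀⟩
    · refine ⟨jj, ?_⟩
      intro hz h2
      exact absurd ⟨hz.out, h2⟩ hL
  choose σ hσ using hall
  refine ⟨J, fJ, σ, val, D, L₂, ⟨W', ?_⟩, ?_⟩
  · intro κ hκ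
    obtain ⟨L₃, hL₃⟩ := exists_pow_lt_of_lt_one hκ (by norm_num : (1 / 2 : ℝ) < 1)
    refine ⟨max L₂ L₃, fun L _ hL => ?_⟩
    obtain ⟨-, h2, h3⟩ := hσ L ((le_max_left _ _).trans hL)
    refine ⟨h2, fun j hj => (h3 j hj).trans ?_⟩
    refine mul_le_mul_of_nonneg_right ?_ (norm_nonneg _)
    exact (pow_le_pow_of_le_one (by norm_num) (by norm_num)
      ((le_max_right _ _).trans hL)).trans hL₃.le
  · intro L _ hL u
    exact (hσ L hL).1 u

end CQ947
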