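import Pool.Agent.R947.CQ.Stm
import Pool.Agent.Results.MP_0f69bf_mp.PeriodicMarginals

/-! # Project CQ: assembly -/

set_option autoImplicit false

open scoped BigOperators ComplexConjugate
open Finset
open Pool.Agent.TH64.PerNet (scal Followed)

namespace CQ947

open SH947 (ipr)

/-- the constant function is followed -/
lemma followed_unit : Followed (fun _ : ℕ => ()) 1 := by
  refine ⟨fun _ _ _ _ _ => 1, fun κ hκ => ⟨0, fun L _ _ => ⟨?_, fun j hj => absurd rfl hj⟩⟩⟩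
  have := Pool.Agent.R947.PT.scal_one L
  rw [this]
  exact one_ne_zero

lemma comb_list {ι : Type} (F : ι → ℕ → ℂ)
    (h : ∀ i, ∃ (J : Type) (_ : Fintype J) (σ : ℕ → J) (val : J → ℂ) (D L₁ : ℕ), Followed σ D ∧
      ∀ (L : ℕ) [NeZero L], L₁ ≤ L → F i L = val (σ L)) (l : List ι) :
    ∃ (J : Type) (_ : Fintype J) (σ : ℕ → J) (val : J → ι → ℂ) (D L₁ : ℕ), Followed σ D ∧
      ∀ (L : ℕ) [NeZero L], L₁ ≤ L → ∀ i ∈ l, F i L = val (σ L) i := by
  classical
  induction l with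
  | nil => exact ⟨Unit, inferInstance, fun _ => (), fun _ _ => 0, 1, 0, followed_unit, by simp⟩
  | cons i l ih =>
    obtain ⟨J, hJ, σ, val, D, L₁, h1, h2⟩ := ih
    obtain ⟨J', hJ', σ', val', D', L₁', h1', h2'⟩ := h i
    refine ⟨J × J', inferInstance, fun L => (σ L, σ' L), fun j x => if x = i then val' j.2 else val j.1 x,
      D * D', max L₁ L₁', Pool.Agent.R947.PT.followed_prod h1 h1', fun L _ hL x hx => ?_⟩
    by_cases hxi : x = i
    · rw [hxi]
      simp only [if_true]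
      exact h2' L ((le_max_right _ _).trans hL)
    · simp only [if_neg hxi]
      rw [List.mem_cons] at hx
      exact h2 L ((le_max_left _ _).trans hL) x (hx.resolve_left hxi)

open Pool.Agent.H4R2 in
/-- The translates of the interaction commute on all large tori. -/
def Commuting {d : ℕ} (B : Finset (ℤ × ℤ)) (h : Matrix (B → Fin d) (B → Fin d) ℂ) : Prop :=
  ∃ L₀ : ℕ, ∀ (L : ℕ) [NeZero L], L₀ ≤ L → ∀ u v : Site L,
    term B h L u * term B h L v = term B h L v * term B h L u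

open Pool.Agent.H4R2 in
open Pool.Agent.Results.MP_0f69bf_mp.PeriodicMarginals (Approximable CloseAlong follow) in
theorem main (hB : S_BRG) (hR : S_RDM) (hF : S_FOL) (d : ℕ) (hd : 2 ≤ d) (B : Finset (ℤ × ℤ))
    (h : Matrix (B → Fin d) (B → Fin d) ℂ) (ψ : ∀ (L : ℕ) [NeZero L], (Site L → Fin d) → ℂ)
    (hh : h.IsHermitian) (hc : Commuting B h) (hgap : GappedFamily B h ψ) (R : Finset (ℤ × ℤ)) :
    (∃ (n : ℕ) (σ : ℕ → Fin n) (ρ : Fin n → Matrix (R → Fin d) (R → Fin d) ℂ)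
      (D L₁ : ℕ), Followed σ D ∧ ∀ (L : ℕ) [NeZero L], L₁ ≤ L → redState R (ψ L) = ρ (σ L)) ∧
    ∃ C : ℕ, ∀ ε : ℝ, 0 < ε → Approximable R ψ ε (C * bondDim d R ε) := by
  classical
  have hgap' := hgap
  obtain ⟨R', w, h', L₁, hh', hb⟩ := hB d B h
  obtain ⟨L₂, hc⟩ := hc
  obtain ⟨Δ, hΔ, L₃, hg⟩ := hgap
  let ψ' : ∀ L : ℕ, (ZMod L × ZMod L → Fin d) → ℂ := fun L => if h0 : L ≠ 0 then @ψ L ⟨h0⟩ else 0
  have hψ' : ∀ (L : ℕ) [NeZero L], ψ' L = ψ L := by
    intro L inst
    simp only [ψ']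
    rw [dif_pos (NeZero.ne L)]
  have hham : ∀ (L : ℕ) [NeZero L], L₁ ≤ L → Pool.Agent.TH235.PP.ham h' L = ham B h L := by
    intro L _ hL
    unfold Pool.Agent.TH235.PP.ham ham
    rw [← Equiv.sum_comp (Equiv.addRight (((w.1 : ZMod L), (w.2 : ZMod L)) : Site L))]
    refine Finset.sum_congr rfl fun u _ => ?_
    rw [hb L hL u]
    rfl
  have hfam : Fam h' ψ' (max L₁ (max L₂ L₃)) := by
    refine ⟨hh' hh, fun L _ hL => ?_⟩
    have k1 : L₁ ≤ L := (le_max_left _ _).trans hL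
    have k2 : L₂ ≤ L := ((le_max_left _ _).trans (le_max_right _ _)).trans hL
    have k3 : L₃ ≤ L := ((le_max_right _ _).trans (le_max_right _ _)).trans hL
    rw [hψ' L]
    obtain ⟨g1, E, g2, g3, g4⟩ := hg L k3
    refine ⟨fun u v => ?_, g1, E, ?_, ?_, ?_⟩
    · have e1 := hb L k1 (u - ((w.1 : ZMod L), (w.2 : ZMod L)))
      have e2 := hb L k1 (v - ((w.1 : ZMod L), (w.2 : ZMod L)))
      rw [sub_add_cancel] at e1 e2
      rw [← e1, ← e2]
      exact hc L k2 _ _
    · rw [hham L k1]; exact g2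
    · rw [hham L k1]; exact g3
    · intro E' φ h1 h2
      rw [hham L k1] at h2
      rcases g4 E' φ h1 h2 with h3 | h3
      · exact h3.ge
      · linarith
  -- all matrix elements
  have hall : ∀ i : (R → Fin d) × (R → Fin d), ∃ (J : Type) (_ : Fintype J) (σ : ℕ → J)
      (val : J → ℂ) (D L₁ : ℕ), Followed σ D ∧ ∀ (L : ℕ) [NeZero L], L₁ ≤ L →
      (fun L => if h0 : L ≠ 0 then @redState d L ⟨h0⟩ R (@ψ L ⟨h0⟩) i.1 i.2 else 0) L =
        val (σ L) := by
    intro i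
    obtain ⟨k, O, w', L₄, hO⟩ := hR d R i.1 i.2
    obtain ⟨J, hJ, σ, val, D, L₅, f1, f2⟩ := hF d R' h' ψ' _ hfam k O
    refine ⟨J, hJ, σ, val, D, max L₃ (max L₄ L₅), f1, fun L _ hL => ?_⟩
    have k3 : L₃ ≤ L := (le_max_left _ _).trans hL
    have k4 : L₄ ≤ L := ((le_max_left _ _).trans (le_max_right _ _)).trans hL
    have k5 : L₅ ≤ L := ((le_max_right _ _).trans (le_max_right _ _)).trans hL
    simp only []
    rw [dif_pos (NeZero.ne L)]
    have e3 := f2 L k5 ((w'.1 : ZMod L), (w'.2 : ZMod L))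
    rw [hψ' L] at e3
    rw [← e3, ← hO L k4 (ψ L)]
    unfold redState
    rw [(hg L k3).1]
    simp
  obtain ⟨J, hJ, σ, val, D, L₄, f1, f2⟩ := comb_list _ hall (Finset.univ : Finset ((R → Fin d) × (R → Fin d))).toList
  have key : ∀ (L : ℕ) [NeZero L], L₄ ≤ L →
      redState R (ψ L) = (fun j : J => (fun a b => val j (a, b) : Matrix (R → Fin d) (R → Fin d) ℂ)) (σ L) := by
    intro L _ hL
    ext a b
    have := f2 L hL (a, b) (by simp)
    simp only [] at this
    rw [dif_pos (NeZero.ne L)] at this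
    exact this
  refine ⟨⟨Fintype.card J, fun L => Fintype.equivFin J (σ L),
    fun j => (fun a b => val ((Fintype.equivFin J).symm j) (a, b)), D, L₄,
    Pool.Agent.R947.PT.followed_equiv (Fintype.equivFin J) f1, fun L _ hL => ?_⟩,
    Fintype.card J * D, fun ε hε => ?_⟩
  · rw [key L hL]
    simp only [Equiv.symm_apply_apply]
  have hcl : CloseAlong σ R ψ (ε / (4 * ((d : ℝ) ^ R.card) ^ 2)) := by
    refine ⟨L₄, fun L L' _ _ k1 k2 k3 a b => ?_⟩
    rw [key L k1, key L' k2, k3]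
    simp only [sub_self, norm_zero]
    have : (0 : ℝ) < d := by exact_mod_cast (by omega : 0 < d)
    positivity
  have := follow d hd R ε hε B h ψ hgap' J σ D f1 hcl
  have e : Fintype.card J * (bondDim d R ε * D) = Fintype.card J * D * bondDim d R ε := by ring
  rwa [e] at this

end CQ947
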