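import Pool.Agent.R947.CQ.Stm

/-! # CQ-LAG: finite spectrum and Lagrange polynomials -/

set_option autoImplicit false

open scoped BigOperators ComplexConjugate
open Finset Pool.Agent.TH235.PP

namespace CQ947

open SH947.SpcAux

theorem t_LAG : S_LAG := by
  classical
  intro d r T
  let Λ : Finset ℂ := T.charpoly.roots.toFinset
  let q : ℂ → Polynomial ℂ := fun μ =>
    Lagrange.interpolate Λ id (fun ν => if ν = μ then (1 : ℂ) else 0)
  have hq : ∀ μ : ℂ, ∀ ν ∈ Λ, (q μ).eval ν = if ν = μ then 1 else 0 := by
    intro μ ν hν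
    have := Lagrange.eval_interpolate_at_node (s := Λ) (v := id)
      (fun ν => if ν = μ then (1 : ℂ) else 0) (fun a _ b _ h => h) hν
    simpa [q] using this
  refine ⟨Λ, fun μ => Polynomial.aeval T (q μ), ?_⟩
  intro L _ hL u
  refine ⟨?_, ?_⟩
  · intro ψ lam hψ h
    have hmem : lam ∈ Λ := by
      have h0 : (Polynomial.aeval (term T u : TorOp d L) T.charpoly).mulVec ψ =
          T.charpoly.eval lam • ψ := aeval_mulVec _ _ _ h _
      rw [← term_aeval hL, Matrix.aeval_self_charpoly] at h0
      have hz : (term (0 : BoxOp d r) u : TorOp d L) = 0 := by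
        have := term_smul (L := L) (0 : ℂ) (0 : BoxOp d r) u
        rw [zero_smul, zero_smul] at this
        exact this
      rw [hz, Matrix.zero_mulVec] at h0
      have h1 : T.charpoly.eval lam = 0 := by
        by_contra hne
        exact hψ ((smul_eq_zero.1 h0.symm).resolve_left hne)
      simp only [Λ, Multiset.mem_toFinset]
      rw [Polynomial.mem_roots (Matrix.charpoly_monic T).ne_zero]
      exact h1
    refine ⟨hmem, fun μ => ?_⟩
    rw [term_aeval hL, aeval_mulVec _ _ _ h, hq μ lam hmem]
    by_cases hml : μ = lam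
    · rw [if_pos hml, if_pos hml.symm]
    · rw [if_neg hml, if_neg (fun e => hml e.symm)]
  · intro a ha μ
    rw [term_aeval hL]
    exact aeval_comm _ _ ha _

end CQ947
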