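import Pool.Agent.R947.CQ.Stm

/-! Project CQ, piece NET (helper950): assembly of the network. -/

set_option autoImplicit false

open scoped BigOperators ComplexConjugate
open Finset Pool.Agent.TH235.PP
open Pool.Agent.TH64.PerNet (scal)

namespace CQ947

theorem t_NET (hW : S_WIN) (hC : S_COL) (hE : S_ENU) (hT : S_TRC) (hG : S_WGT) : S_NET := by
  intro d r'
  obtain ⟨q, hq⟩ := hC (r' + 1)
  obtain ⟨w, hw⟩ := hG d r' q
  obtain ⟨D, hD⟩ := hW (Fin (q + 1) × (Fin (q + 1) → Fin d)) (2 * r')
  choose W hWW using fun X => hD (w X)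
  refine ⟨D, 2 * r' + 1, W, ?_⟩
  intro L _ hL
  choose en hen using fun c : {c : Site L → Fin (q + 1) // Proper (r' + 1) c} =>
    hE d (r' + 1) q L c.1 (by omega) c.2
  have key : ∀ X : BoxOp d (r' + 1), ∀ c : {c : Site L → Fin (q + 1) // Proper (r' + 1) c},
      Matrix.trace (op (fun b => (term X (en c b) : TorOp d L))) =
        ∑ s : Fin (q + 1) → Site L → Fin d, ∏ k, lay X c.1 k (s k) (s (k + 1)) := by
    intro X c
    rw [hen c X]
    exact hT _ q _
  classical
  refine ⟨Fintype.card {c : Site L → Fin (q + 1) // Proper (r' + 1) c},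
    fun i => en ((Fintype.equivFin _).symm i), ?_, ?_⟩
  · obtain ⟨c, hc⟩ := hq L
    exact Fintype.card_pos_iff.2 ⟨⟨c, hc⟩⟩
  · intro X
    rw [hWW X L]
    have h1 : ∑ i, Matrix.trace (op (fun b =>
        (term X ((en ((Fintype.equivFin {c : Site L → Fin (q + 1) // Proper (r' + 1) c}).symm i)) b) :
          TorOp d L))) = ∑ c : {c : Site L → Fin (q + 1) // Proper (r' + 1) c},
        Matrix.trace (op (fun b => (term X (en c b) : TorOp d L))) :=
      Equiv.sum_comp (Fintype.equivFin {c : Site L → Fin (q + 1) // Proper (r' + 1) c}).symm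
        (fun c => Matrix.trace (op (fun b => (term X (en c b) : TorOp d L))))
    rw [h1]
    simp only [key]
    rw [← Finset.sum_subtype (Finset.univ.filter fun c : Site L → Fin (q + 1) => Proper (r' + 1) c)
      (fun c => by simp)
      (fun c => ∑ s : Fin (q + 1) → Site L → Fin d, ∏ k, lay X c k (s k) (s (k + 1))), Finset.sum_filter]
    let e : (Site L → Fin (q + 1) × (Fin (q + 1) → Fin d)) ≃
        (Site L → Fin (q + 1)) × (Fin (q + 1) → Site L → Fin d) :=
      { toFun := fun l => (fun x => (l x).1, fun k x => (l x).2 k)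
        invFun := fun p x => (p.1 x, fun k => p.2 k x)
        left_inv := fun l => rfl
        right_inv := fun p => rfl }
    rw [← Equiv.sum_comp e.symm, Fintype.sum_prod_type]
    refine Finset.sum_congr rfl fun c _ => ?_
    have h2 : ∀ s : Fin (q + 1) → Site L → Fin d,
        ∏ u : Site L, w X (fun x => e.symm (c, s) (sh u x)) =
          if Proper (r' + 1) c then ∏ k, lay X c k (s k) (s (k + 1)) else 0 := by
      intro s
      refine Eq.trans ?_ ((hw L hL X c s).trans ?_)
      · rfl
      · congr
    rw [Finset.sum_congr rfl fun s _ => h2 s]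
    split_ifs
    · rfl
    · simp

end CQ947
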