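import Pool.Agent.R947.CQ.Stm

/-! # CQ-OPS: the operators X j -/

set_option autoImplicit false

open scoped BigOperators ComplexConjugate
open Finset Pool.Agent.TH235.PP

namespace CQ947

open SH947 (ipr)
open SH947.SpcAux

namespace OpsAux427

lemma ipr_herm {S : Type} [Fintype S] (A : Matrix S S ℂ) (hA : A.IsHermitian) (ψ φ : S → ℂ) :
    ipr ψ (A.mulVec φ) = ipr (A.mulVec ψ) φ := by
  unfold ipr
  simp only [Matrix.mulVec, dotProduct, Finset.mul_sum, map_sum, map_mul, Finset.sum_mul]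
  rw [Finset.sum_comm]
  refine Finset.sum_congr rfl fun s _ => Finset.sum_congr rfl fun t _ => ?_
  have : (starRingEnd ℂ) (A s t) = A t s := hA.apply t s
  rw [this]
  ring

lemma ipr_smul {S : Type} [Fintype S] (c : ℂ) (ψ φ : S → ℂ) :
    ipr ψ (c • φ) = c * ipr ψ φ := by
  unfold ipr
  rw [Finset.mul_sum]
  refine Finset.sum_congr rfl fun s _ => ?_
  rw [Pi.smul_apply, smul_eq_mul]
  ring

lemma ipr_smul' {S : Type} [Fintype S] (c : ℂ) (ψ φ : S → ℂ) :
    ipr (c • ψ) φ = (starRingEnd ℂ) c * ipr ψ φ := by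
  unfold ipr
  rw [Finset.mul_sum]
  refine Finset.sum_congr rfl fun s _ => ?_
  rw [Pi.smul_apply, smul_eq_mul, map_mul]
  ring

lemma ipr_self {S : Type} [Fintype S] (ψ : S → ℂ) : ipr ψ ψ = (normSq ψ : ℂ) := by
  unfold ipr normSq
  rw [Complex.ofReal_sum]
  refine Finset.sum_congr rfl fun s _ => ?_
  rw [← Complex.normSq_eq_norm_sq, Complex.normSq_eq_conj_mul_self]

end OpsAux427

open OpsAux427

theorem t_OPS (hT : S_TOP) (hL : S_LAG) (hI : S_TIE) : S_OPS := by
  classical
  intro d R' k h O hh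
  obtain ⟨Λh, Zh, hΛh⟩ := hL d (R' + 1) h
  have hT' : ∀ μ : ℝ, ∃ Pi T : BoxOp d (k + 2 * R' + 1), ∀ (L : ℕ) [NeZero L],
      k + 2 * R' + 1 ≤ L →
      (∀ u v : Site L, (term h u : TorOp d L) * term h v = term h v * term h u) →
      (∀ u v : Site L, (term h v : TorOp d L) * term T u = term T u * term h v) ∧
      (∀ u v : Site L, (term h v : TorOp d L) * term Pi u = term Pi u * term h v) ∧
      (∀ u : Site L, (term h u : TorOp d L) * term Pi u = (μ : ℂ) • (term Pi u : TorOp d L)) ∧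
      (∀ (u : Site L) (ψ : (Site L → Fin d) → ℂ),
        (∀ v : Site L, (term h v : TorOp d L).mulVec ψ = (μ : ℂ) • ψ) →
          (term Pi u : TorOp d L).mulVec ψ = ψ ∧
          ipr ψ ((term T u : TorOp d L).mulVec ψ) =
            ipr ψ ((term O (u + ((R' : ZMod L), (R' : ZMod L))) : TorOp d L).mulVec ψ)) :=
    fun μ => hT d R' k h O (μ : ℂ) hh
  choose Pi T hPT using hT'
  choose Λ Z hΛ using fun μ : ℝ => hL d (k + 2 * R' + 1) (T μ)
  let M : Finset ℝ := Λh.image Complex.re
  refine ⟨(μ : {x // x ∈ M}) × {x // x ∈ Λ μ.1}, inferInstance, fun j => j.1.1, fun j => j.2.1,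
    fun j => Z j.1.1 j.2.1 * Pi j.1.1, ?_, ?_⟩
  · rintro ⟨⟨μ, hμ⟩, ⟨x, hx⟩⟩ ⟨⟨μ', hμ'⟩, ⟨x', hx'⟩⟩ h1 h2
    simp only at h1 h2
    subst h1
    subst h2
    rfl
  · intro L _ hrL hc
    have cZ : ∀ (μ : ℝ) (x : ℂ) (u v : Site L), (term h v : TorOp d L) * term (Z μ x) u =
        term (Z μ x) u * term h v := fun μ x u v =>
      (hΛ μ L hrL u).2 _ ((hPT μ L hrL hc).1 u v) x
    refine ⟨?_, ?_, ?_⟩
    · intro j u v
      rw [term_mul hrL, ← mul_assoc, cZ, mul_assoc, (hPT j.1.1 L hrL hc).2.1 u v, ← mul_assoc]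
    · intro j u
      rw [term_mul hrL, ← mul_assoc, cZ, mul_assoc, (hPT j.1.1 L hrL hc).2.2.1 u, mul_smul_comm]
    · intro ψ μ E hn hμ hE hs
      have hψ : ψ ≠ 0 := by
        rintro rfl
        simp [normSq] at hn
      have hself : ipr ψ ψ = 1 := by rw [ipr_self, hn]; simp
      have hherm : (term h (0 : Site L) : TorOp d L).IsHermitian := by
        have := term_ct (L := L) h 0
        unfold Matrix.IsHermitian
        rw [← this, hh.eq]
      have hreal : (starRingEnd ℂ) μ = μ := by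
        have e := ipr_herm _ hherm ψ ψ
        rw [hμ 0, ipr_smul, ipr_smul', hself, mul_one, mul_one] at e
        exact e.symm
      have hμre : ((μ.re : ℝ) : ℂ) = μ := (Complex.conj_eq_iff_re.1 hreal)
      have hμM : μ.re ∈ M := Finset.mem_image_of_mem _
        ((hΛh L (by omega) 0).1 ψ μ hψ (hμ 0)).1
      set m : ℝ := μ.re with hm
      have hμ' : ∀ v : Site L, (term h v : TorOp d L).mulVec ψ = (m : ℂ) • ψ := by
        intro v
        rw [hμre]
        exact hμ v
      obtain ⟨t1, t2, t3, t4⟩ := hPT m L hrL hc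
      have hcomm : ∀ u : Site L, ham h L * (term (T m) u : TorOp d L) =
          term (T m) u * ham h L := by
        intro u
        unfold ham
        rw [Finset.sum_mul, Finset.mul_sum]
        exact Finset.sum_congr rfl fun v _ => t1 u v
      have hTu : ∀ u : Site L, (term (T m) u : TorOp d L).mulVec ψ =
          ipr ψ ((term O (0 : Site L) : TorOp d L).mulVec ψ) • ψ := by
        intro u
        obtain ⟨c, hc'⟩ := hs ((term (T m) u : TorOp d L).mulVec ψ) (by
          rw [Matrix.mulVec_mulVec, hcomm, ← Matrix.mulVec_mulVec, hE, Matrix.mulVec_smul])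
        have e1 := (t4 u ψ hμ').2
        rw [hc', ipr_smul, hself, mul_one] at e1
        rw [hc', e1]
        congr 1
        exact hI d (R' + 1) (k + 1) L h O ψ E hψ hE hs _ _
      have hx : ipr ψ ((term O (0 : Site L) : TorOp d L).mulVec ψ) ∈ Λ m :=
        ((hΛ m L hrL 0).1 ψ _ hψ (hTu 0)).1
      refine ⟨⟨⟨m, hμM⟩, ⟨_, hx⟩⟩, hμre, ?_, ?_⟩
      · intro u
        exact hI d (R' + 1) (k + 1) L h O ψ E hψ hE hs _ _
      · rintro ⟨⟨m', hm'⟩, ⟨y, hy⟩⟩ u hj
        simp only at hj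
        subst hj
        rw [term_mul hrL, ← Matrix.mulVec_mulVec, (t4 u ψ hμ').1]
        rw [((hΛ _ L hrL u).1 ψ _ hψ (hTu u)).2 y]
        by_cases hyx : y = ipr ψ ((term O (0 : Site L) : TorOp d L).mulVec ψ)
        · subst hyx
          simp
        · rw [if_neg hyx, if_neg]
          intro hcon
          apply hyx
          simp only [Sigma.mk.injEq, Subtype.mk.injEq, true_and] at hcon
          have := eq_of_heq hcon
          exact congrArg Subtype.val this

end CQ947
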