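import Pool.Agent.R947.CQ.Stm

/-! # CQ-TIE: translation invariance of expectations -/

set_option autoImplicit false

open scoped BigOperators ComplexConjugate
open Finset Pool.Agent.TH235.PP

namespace CQ947

open SH947 (ipr cs term_cs simple_shift)

theorem t_TIE : S_TIE := by
  intro d R k L _ h O ψ E hψ h1 h2 u v
  obtain ⟨c, hc, hs⟩ := simple_shift h ψ E hψ h1 h2 (v - u)
  have hcc : conj c * c = 1 := by
    rw [Complex.conj_mul', hc]; norm_num
  unfold ipr Matrix.mulVec dotProduct
  simp only [Finset.mul_sum]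
  have e : ∑ s, ∑ t, conj (ψ s) * ((term O u : TorOp d L) s t * ψ t) =
      ∑ s, ∑ t, conj (ψ (cs (v - u) s)) *
        ((term O u : TorOp d L) (cs (v - u) s) (cs (v - u) t) * ψ (cs (v - u) t)) := by
    symm
    refine Fintype.sum_equiv (cs (v - u)) _ _ fun s => ?_
    exact Fintype.sum_equiv (cs (v - u)) _ _ fun t => rfl
  rw [e]
  refine Finset.sum_congr rfl fun s _ => Finset.sum_congr rfl fun t _ => ?_
  rw [term_cs, hs s, hs t, map_mul, add_sub_cancel]
  calc conj c * conj (ψ s) * ((term O v : TorOp d L) s t * (c * ψ t))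
      = (conj c * c) * (conj (ψ s) * ((term O v : TorOp d L) s t * ψ t)) := by ring
    _ = _ := by rw [hcc, one_mul]

end CQ947
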