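import Pool.Agent.R947.CQ.Stm

/-! # TOP (second version, helper98) -/

set_option autoImplicit false

open scoped BigOperators ComplexConjugate
open Finset Pool.Agent.TH235.PP

namespace CQ947

open SH947 (ipr)

namespace TopAux

lemma ipr_herm {S : Type} [Fintype S] [DecidableEq S] (A : Matrix S S ℂ) (hA : A.IsHermitian)
    (ψ φ : S → ℂ) (h : A.mulVec ψ = ψ) : ipr ψ (A.mulVec φ) = ipr ψ φ := by
  have e1 : ipr ψ (A.mulVec φ) = dotProduct (star ψ) (A.mulVec φ) := rfl
  have e2 : ipr ψ φ = dotProduct (star ψ) φ := rfl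
  rw [e1, e2, Matrix.dotProduct_mulVec]
  congr 1
  have h1 := Matrix.star_mulVec A ψ
  rw [hA.eq, h] at h1
  exact h1.symm

lemma ipr_list {S : Type} [Fintype S] [DecidableEq S] (ψ : S → ℂ) (l : List (Matrix S S ℂ))
    (hl : ∀ A ∈ l, A.IsHermitian ∧ A.mulVec ψ = ψ) (φ : S → ℂ) :
    ipr ψ (l.prod.mulVec φ) = ipr ψ φ := by
  induction l with
  | nil => simp
  | cons a l ih =>
    rw [List.prod_cons, ← Matrix.mulVec_mulVec,
      ipr_herm a (hl a (by simp)).1 ψ _ (hl a (by simp)).2]
    exact ih (fun A hA => hl A (by simp [hA]))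

lemma mulVec_list {S : Type} [Fintype S] [DecidableEq S] (ψ : S → ℂ) (l : List (Matrix S S ℂ))
    (hl : ∀ A ∈ l, A.mulVec ψ = ψ) : l.prod.mulVec ψ = ψ := by
  induction l with
  | nil => simp
  | cons a l ih =>
    rw [List.prod_cons, ← Matrix.mulVec_mulVec, ih (fun A hA => hl A (by simp [hA])),
      hl a (by simp)]

lemma absorb {S : Type} [Fintype S] [DecidableEq S] (H : Matrix S S ℂ) (μ : ℂ)
    (l : List (Matrix S S ℂ)) (hc : ∀ A ∈ l, H * A = A * H) (B : Matrix S S ℂ) (hB : B ∈ l)
    (hH : H * B = μ • B) : H * l.prod = μ • l.prod := by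
  induction l with
  | nil => simp at hB
  | cons a l ih =>
    rw [List.prod_cons]
    rcases List.mem_cons.1 hB with h | h
    · subst h
      rw [← mul_assoc, hH, Matrix.smul_mul]
    · rw [← mul_assoc, hc a (by simp), mul_assoc, ih (fun A hA => hc A (by simp [hA])) h,
        Matrix.mul_smul]

end TopAux

open TopAux in
theorem t_TOP (hS : SH947.S_SPC) (hE : S_EMB) (hD : S_DIS) : S_TOP := by
  classical
  intro d R' k h O μ hh
  obtain ⟨p, hp⟩ := hS d R' h hh μ
  have hP : ∀ x : Fin (k + R' + 1) × Fin (k + R' + 1), ∃ A' : BoxOp d (k + 2 * R' + 1),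
      ∀ (L : ℕ) [NeZero L], k + 2 * R' + 1 ≤ L → ∀ u : Site L,
        (term A' u : TorOp d L) = term p (u + (((x.1 : ℕ) : ZMod L), ((x.2 : ℕ) : ZMod L))) := by
    intro x
    have h1 := x.1.2
    have h2 := x.2.2
    exact hE d (R' + 1) (k + 2 * R' + 1) p ((x.1 : ℕ), (x.2 : ℕ)) (by simp only; omega)
      (by simp only; omega)
  choose P hP using hP
  obtain ⟨Ot, hOt⟩ := hE d (k + 1) (k + 2 * R' + 1) O (R', R') (by simp only; omega)
    (by simp only; omega)
  set l : List (Fin (k + R' + 1) × Fin (k + R' + 1)) :=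
    (Finset.univ : Finset (Fin (k + R' + 1) × Fin (k + R' + 1))).toList with hl
  have hlm : ∀ x, x ∈ l := fun x => by rw [hl]; simp
  refine ⟨(l.map P).prod, (l.map P).prod * Ot * (l.map P).prod, ?_⟩
  intro L _ hL hc
  have hR1 : R' + 1 ≤ L := by omega
  have hk1 : k + 1 ≤ L := by omega
  obtain ⟨p1, p2, p3, p4⟩ := hp L hR1
  have p4' := p4 hc
  -- the term of Pi
  set off : (Fin (k + R' + 1) × Fin (k + R' + 1)) → Site L :=
    fun x => (((x.1 : ℕ) : ZMod L), ((x.2 : ℕ) : ZMod L)) with hoff
  have hPi : ∀ u : Site L, (term (l.map P).prod u : TorOp d L) =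
      (l.map (fun x => (term p (u + off x) : TorOp d L))).prod := by
    intro u
    have h1 := map_list_prod (SH947.SpcAux.termHom (d := d) hL u) (l.map P)
    rw [List.map_map] at h1
    rw [SH947.SpcAux.termHom_apply] at h1
    rw [h1]
    congr 1
    refine List.map_congr_left ?_
    intro x _
    show (term (P x) u : TorOp d L) = _
    exact hP x L hL u
  have hmul : ∀ (a b : BoxOp d (k + 2 * R' + 1)) (u : Site L),
      (term (a * b) u : TorOp d L) = term a u * term b u :=
    fun a b u => SH947.SpcAux.term_mul hL a b u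
  have hcomm : ∀ u v : Site L, (term h v : TorOp d L) * term (l.map P).prod u =
      term (l.map P).prod u * term h v := by
    intro u v
    rw [hPi]
    have h1 : Commute (term h v : TorOp d L)
        (l.map (fun x => (term p (u + off x) : TorOp d L))).prod := by
      apply Commute.list_prod_right
      intro A hA
      obtain ⟨x, _, rfl⟩ := List.mem_map.1 hA
      exact p4' v (u + off x)
    exact h1
  have habs : ∀ (u : Site L) (x : Fin (k + R' + 1) × Fin (k + R' + 1)),
      (term h (u + off x) : TorOp d L) * term (l.map P).prod u =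
        μ • (term (l.map P).prod u : TorOp d L) := by
    intro u x
    rw [hPi]
    refine absorb _ μ _ ?_ (term p (u + off x)) ?_ (p2 _)
    · intro A hA
      obtain ⟨y, _, rfl⟩ := List.mem_map.1 hA
      exact p4' _ _
    · exact List.mem_map.2 ⟨x, hlm x, rfl⟩
  refine ⟨?_, hcomm, ?_, ?_⟩
  · intro u v
    rw [hmul, hmul]
    set A : TorOp d L := term (l.map P).prod u with hA
    set B : TorOp d L := term Ot u with hB
    set H : TorOp d L := term h v with hH
    have hHA : H * A = A * H := hcomm u v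
    by_cases hv : ∃ x, v = u + off x
    · obtain ⟨x, hx⟩ := hv
      have h1 : H * A = μ • A := by rw [hH, hx]; exact habs u x
      have h2 : A * H = μ • A := by rw [← hHA, h1]
      calc H * (A * B * A) = (H * A) * B * A := by simp only [mul_assoc]
        _ = μ • (A * B * A) := by rw [h1, Matrix.smul_mul, Matrix.smul_mul]
        _ = A * B * (μ • A) := by rw [Matrix.mul_smul]
        _ = A * B * A * H := by rw [← h2]; simp only [mul_assoc]
    · have h3 : H * B = B * H := by
        rw [hB, hOt L hL u]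
        apply hD d (R' + 1) (k + 1) L h O v _ hR1 hk1
        intro x y hxy
        apply hv
        have hx1 := x.1.2
        have hx2 := x.2.2
        have hy1 := y.1.2
        have hy2 := y.2.2
        refine ⟨(⟨R' + y.1 - x.1, by omega⟩, ⟨R' + y.2 - x.2, by omega⟩), ?_⟩
        have e1 : v.1 + ((x.1 : ℕ) : ZMod L) = u.1 + (R' : ZMod L) + ((y.1 : ℕ) : ZMod L) :=
          congrArg Prod.fst hxy
        have e2 : v.2 + ((x.2 : ℕ) : ZMod L) = u.2 + (R' : ZMod L) + ((y.2 : ℕ) : ZMod L) :=
          congrArg Prod.snd hxy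
        rw [hoff]
        refine Prod.ext ?_ ?_
        · show v.1 = u.1 + ((R' + (y.1 : ℕ) - (x.1 : ℕ) : ℕ) : ZMod L)
          rw [Nat.cast_sub (by omega)]
          push_cast
          linear_combination e1
        · show v.2 = u.2 + ((R' + (y.2 : ℕ) - (x.2 : ℕ) : ℕ) : ZMod L)
          rw [Nat.cast_sub (by omega)]
          push_cast
          linear_combination e2
      calc H * (A * B * A) = (H * A) * B * A := by simp only [mul_assoc]
        _ = A * (H * B) * A := by rw [hHA]; simp only [mul_assoc]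
        _ = A * B * (H * A) := by rw [h3]; simp only [mul_assoc]
        _ = A * B * A * H := by rw [hHA]; simp only [mul_assoc]
  · intro u
    have h1 := habs u (0, 0)
    have h2 : u + off (0, 0) = u := by
      rw [hoff]
      refine Prod.ext ?_ ?_
      · show u.1 + (((0 : Fin (k + R' + 1)) : ℕ) : ZMod L) = u.1
        simp
      · show u.2 + (((0 : Fin (k + R' + 1)) : ℕ) : ZMod L) = u.2
        simp
    rw [h2] at h1
    exact h1
  · intro u ψ hψ
    have hpψ : ∀ v : Site L, (term p v : TorOp d L).mulVec ψ = ψ := fun v => p3 v ψ (hψ v)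
    have h1 : (term (l.map P).prod u : TorOp d L).mulVec ψ = ψ := by
      rw [hPi]
      apply mulVec_list
      intro A hA
      obtain ⟨y, _, rfl⟩ := List.mem_map.1 hA
      exact hpψ _
    refine ⟨h1, ?_⟩
    rw [hmul, hmul, ← Matrix.mulVec_mulVec, h1, ← Matrix.mulVec_mulVec]
    rw [hPi, ipr_list]
    · rw [hOt L hL u]
    · intro A hA
      obtain ⟨y, _, rfl⟩ := List.mem_map.1 hA
      exact ⟨p1 _, hpψ _⟩

end CQ947
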