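import Pool.Agent.R947.CQ.Stm

/-! Project CQ, piece WIN (helper950): networks of finite range are tensor networks. -/

set_option autoImplicit false

open scoped BigOperators ComplexConjugate
open Finset Pool.Agent.TH235.PP
open Pool.Agent.TH64.PerNet (scal)

namespace CQ947

open Classical in
theorem t_WIN : S_WIN := by
  intro S _ n
  let K : Type := Fin (n + 1) × Fin (n + 1) → S
  let ε : K ≃ Fin (Fintype.card K) := Fintype.equivFin K
  refine ⟨Fintype.card K, fun w => ?_⟩
  let SX : K → K → Prop := fun a b => ∀ (i : ℕ) (hi : i + 1 < n + 1) (j : Fin (n + 1)),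
    b (⟨i, by omega⟩, j) = a (⟨i + 1, hi⟩, j)
  let SY : K → K → Prop := fun a b => ∀ (j : ℕ) (hj : j + 1 < n + 1) (i : Fin (n + 1)),
    b (i, ⟨j, by omega⟩) = a (i, ⟨j + 1, hj⟩)
  refine ⟨fun l r u d => if r = u ∧ SX (ε.symm l) (ε.symm r) ∧ SY (ε.symm d) (ε.symm u) then
    w (ε.symm u) else 0, ?_⟩
  intro L _
  unfold scal
  rw [← Fintype.sum_prod_type' (f := fun (h v : Site L → Fin (Fintype.card K)) => ∏ x : Site L,
    (if (h x) = (v x) ∧ SX (ε.symm (h (x.1 - 1, x.2))) (ε.symm (h x)) ∧
      SY (ε.symm (v (x.1, x.2 - 1))) (ε.symm (v x)) then w (ε.symm (v x)) else 0))]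
  symm
  let e : (Site L → S) → (Site L → Fin (Fintype.card K)) × (Site L → Fin (Fintype.card K)) :=
    fun l => (fun x => ε (fun y => l (sh x y)), fun x => ε (fun y => l (sh x y)))
  apply Fintype.sum_of_injective e
  · intro l l' hl
    funext x
    have h1 := congrFun (congrArg Prod.fst hl) x
    have h2 : (fun y : Fin (n + 1) × Fin (n + 1) => l (sh x y)) = fun y => l' (sh x y) :=
      ε.injective h1
    have h3 := congrFun h2 (0, 0)
    simpa [sh] using h3
  · rintro ⟨h, v⟩ hp
    by_contra hne
    apply hp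
    have hall : ∀ x : Site L, (h x) = (v x) ∧ SX (ε.symm (h (x.1 - 1, x.2))) (ε.symm (h x)) ∧
        SY (ε.symm (v (x.1, x.2 - 1))) (ε.symm (v x)) := by
      intro x
      by_contra hx
      apply hne
      apply Finset.prod_eq_zero (Finset.mem_univ x)
      rw [if_neg hx]
    have hb1 : ∀ (i : ℕ) (hi : i < n + 1) (x : Site L) (j : Fin (n + 1)),
        ε.symm (v x) (⟨i, hi⟩, j) = ε.symm (v (x.1 + (i : ZMod L), x.2)) (0, j) := by
      intro i
      induction i with
      | zero =>
        intro hi x j
        simp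
      | succ i ih =>
        intro hi x j
        have h1 := (hall (x.1 + 1, x.2)).2.1 i hi j
        rw [(hall (x.1 + 1, x.2)).1] at h1
        have h2 : ((x.1 + 1, x.2).1 - 1, (x.1 + 1, x.2).2) = x := by
          ext <;> simp
        rw [h2, (hall x).1] at h1
        rw [← h1, ih (by omega)]
        have h3 : (x.1 + 1 + (i : ZMod L), x.2) = (x.1 + ((i + 1 : ℕ) : ZMod L), x.2) := by
          ext
          · simp only [Nat.cast_add, Nat.cast_one]; ring
          · rfl
        rw [← h3]
    have hb2 : ∀ (j : ℕ) (hj : j < n + 1) (x : Site L) (i : Fin (n + 1)),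
        ε.symm (v x) (i, ⟨j, hj⟩) = ε.symm (v (x.1, x.2 + (j : ZMod L))) (i, 0) := by
      intro j
      induction j with
      | zero =>
        intro hj x i
        simp
      | succ j ih =>
        intro hj x i
        have h1 := (hall (x.1, x.2 + 1)).2.2 j hj i
        have h2 : ((x.1, x.2 + 1).1, (x.1, x.2 + 1).2 - 1) = x := by
          ext <;> simp
        rw [h2] at h1
        rw [← h1, ih (by omega)]
        have h3 : (x.1, x.2 + 1 + (j : ZMod L)) = (x.1, x.2 + ((j + 1 : ℕ) : ZMod L)) := by
          ext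
          · rfl
          · simp only [Nat.cast_add, Nat.cast_one]; ring
        rw [← h3]
    have hv : ∀ x : Site L, ε (fun y => ε.symm (v (sh x y)) (0, 0)) = v x := by
      intro x
      rw [← Equiv.eq_symm_apply]
      funext y
      obtain ⟨i, j⟩ := y
      have h1 := hb1 i i.2 x j
      have h2 := hb2 j j.2 (x.1 + ((i : ℕ) : ZMod L), x.2) 0
      rw [Fin.eta] at h1 h2
      rw [h1, h2]
      rfl
    refine ⟨fun x => ε.symm (v x) (0, 0), ?_⟩
    refine Prod.ext ?_ ?_
    · funext x
      exact (hv x).trans (hall x).1.symm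
    · funext x
      exact hv x
  · intro l
    refine Finset.prod_congr rfl fun x _ => ?_
    have hX : SX (ε.symm (ε (fun y => l (sh ((x.1 - 1, x.2) : Site L) y)))) (ε.symm (ε (fun y => l (sh x y)))) := by
      rw [Equiv.symm_apply_apply, Equiv.symm_apply_apply]
      intro i hi j
      change l (sh x _) = l (sh _ _)
      congr 1
      unfold sh
      ext
      · simp only [Nat.cast_add, Nat.cast_one]; ring
      · rfl
    have hY : SY (ε.symm (ε (fun y => l (sh ((x.1, x.2 - 1) : Site L) y)))) (ε.symm (ε (fun y => l (sh x y)))) := by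
      rw [Equiv.symm_apply_apply, Equiv.symm_apply_apply]
      intro i hi j
      change l (sh x _) = l (sh _ _)
      congr 1
      unfold sh
      ext
      · rfl
      · simp only [Nat.cast_add, Nat.cast_one]; ring
    rw [if_pos ⟨rfl, hX, hY⟩]
    change _ = w (ε.symm (ε (fun y => l (sh x y))))
    rw [Equiv.symm_apply_apply]

end CQ947
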