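import Pool.Agent.R947.CR.Fin
import Pool.Agent.R947.SH.TRI
import Pool.Agent.R947.CR.BRG
import Pool.Agent.R947.CR.RDM
import Pool.Agent.R947.CR.EMB
import Pool.Agent.R947.CR.DIS
import Pool.Agent.R947.CR.TOP
import Pool.Agent.R947.CR.LAG
import Pool.Agent.R947.CR.TIE
import Pool.Agent.R947.CR.BND
import Pool.Agent.R947.CR.TRE
import Pool.Agent.R947.CR.WIN
import Pool.Agent.R947.CR.COL
import Pool.Agent.R947.CR.ENU
import Pool.Agent.R947.CR.TRC
import Pool.Agent.R947.CR.WGT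
import Pool.Agent.R947.CR.NET
import Pool.Agent.R947.CR.OPS
import Pool.Agent.R947.CR.FOL

/-! # Project CQ: all pieces together -/

set_option autoImplicit false

namespace CQ947

theorem T_FOL : S_FOL :=
  t_FOL SH947.t_TRI (t_OPS (t_TOP SH947.t_SPC t_EMB t_DIS) t_LAG t_TIE) t_TRE t_BND
    (t_NET t_WIN t_COL t_ENU t_TRC t_WGT)

end CQ947
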