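import Pool.Agent.R947.CQ.Stm

/-! Project CQ, piece WGT (helper950): the layers and the properness are given by local weights. -/

set_option autoImplicit false

open scoped BigOperators ComplexConjugate
open Finset Pool.Agent.TH235.PP

namespace CQ947

namespace W950

/-- the small box in the window -/
def emb (r' : ℕ) (y : Fin (r' + 1) × Fin (r' + 1)) : Fin (2 * r' + 1) × Fin (2 * r' + 1) :=
  (⟨y.1, by omega⟩, ⟨y.2, by omega⟩)

def y0 (r' : ℕ) : Fin (2 * r' + 1) × Fin (2 * r' + 1) := (⟨r', by omega⟩, ⟨r', by omega⟩)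

def o0 (r' : ℕ) : Fin (2 * r' + 1) × Fin (2 * r' + 1) := (⟨0, by omega⟩, ⟨0, by omega⟩)

lemma sh_emb (r' : ℕ) {L : ℕ} (u : Site L) (y : Fin (r' + 1) × Fin (r' + 1)) :
    sh u (emb r' y) = sh u y := rfl

lemma sh_o0 (r' : ℕ) {L : ℕ} (u : Site L) : sh u (o0 r') = u := by
  unfold sh o0
  simp

/-- the site with the centre `x` -/
lemma sh_y0 (r' : ℕ) {L : ℕ} (x : Site L) :
    sh ((x.1 - (r' : ZMod L), x.2 - (r' : ZMod L)) : Site L) (y0 r') = x := by
  unfold sh y0
  ext <;> simp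

/-- complementary offset -/
def co (r' : ℕ) (y : Fin (r' + 1) × Fin (r' + 1)) : Fin (r' + 1) × Fin (r' + 1) :=
  (⟨r' - y.1, by omega⟩, ⟨r' - y.2, by omega⟩)

lemma cast_co (r' : ℕ) (L : ℕ) (a : Fin (r' + 1)) : (((r' - a : ℕ)) : ZMod L) = (r' : ZMod L) - ((a : ℕ) : ZMod L) := by
  rw [Nat.cast_sub (by omega)]

lemma sh_sh_co (r' : ℕ) {L : ℕ} (u : Site L) (v : Fin (r' + 1) × Fin (r' + 1)) :
    sh (sh u v) (co r' v) = sh u (y0 r') := by
  unfold sh co y0
  simp only [cast_co]
  ext <;> simp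

lemma eq_co (r' : ℕ) {L : ℕ} (u v : Site L) (y : Fin (r' + 1) × Fin (r' + 1))
    (h : sh v y = sh u (y0 r')) : v = sh u (co r' y) := by
  unfold sh co y0 at *
  simp only [cast_co]
  rw [Prod.ext_iff] at h ⊢
  obtain ⟨h1, h2⟩ := h
  simp only at h1 h2 ⊢
  constructor
  · rw [← add_sub_assoc, ← h1]; ring
  · rw [← add_sub_assoc, ← h2]; ring

lemma sh_inj' (r' : ℕ) {L : ℕ} (hL : 2 * r' + 1 ≤ L) (u : Site L)
    (v w : Fin (2 * r' + 1) × Fin (2 * r' + 1)) (h : sh u v = sh u w) : v = w := by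
  unfold sh at h
  rw [Prod.ext_iff] at h
  obtain ⟨h1, h2⟩ := h
  simp only [add_right_inj] at h1 h2
  rw [ZMod.natCast_eq_natCast_iff'] at h1 h2
  rw [Nat.mod_eq_of_lt (by omega), Nat.mod_eq_of_lt (by omega)] at h1 h2
  ext
  · exact h1
  · exact h2

open Classical in
noncomputable def wt950 {d q : ℕ} (r' : ℕ) (X : BoxOp d (r' + 1))
    (a : Fin (2 * r' + 1) × Fin (2 * r' + 1) → Fin (q + 1) × (Fin (q + 1) → Fin d)) : ℂ :=
  X (fun y => (a (emb r' y)).2 (a (o0 r')).1) (fun y => (a (emb r' y)).2 ((a (o0 r')).1 + 1)) *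
  (if ∀ k, (∀ v : Fin (r' + 1) × Fin (r' + 1), (a (emb r' v)).1 ≠ k) →
    (a (y0 r')).2 k = (a (y0 r')).2 (k + 1) then 1 else 0) *
  (if ∀ v, v ≠ y0 r' → (a (y0 r')).1 ≠ (a v).1 then 1 else 0)

end W950

open W950 in
theorem t_WGT : S_WGT := by
  classical
  intro d r' q
  refine ⟨fun X a => wt950 r' X a, ?_⟩
  intro L _ hL X c s
  have hA : ∀ u : Site L, wt950 r' X (fun x => (c (sh u x), fun k => s k (sh u x))) =
      X (fun y => s (c u) (sh u y)) (fun y => s (c u + 1) (sh u y)) *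
      (if ∀ k, (∀ v : Fin (r' + 1) × Fin (r' + 1), c (sh u v) ≠ k) →
        s k (sh u (y0 r')) = s (k + 1) (sh u (y0 r')) then 1 else 0) *
      (if ∀ v, v ≠ y0 r' → c (sh u (y0 r')) ≠ c (sh u v) then 1 else 0) := by
    intro u
    unfold wt950
    simp only [sh_emb, sh_o0]
    congr!
  simp only [hA]
  rw [Finset.prod_mul_distrib, Finset.prod_mul_distrib]
  simp only [Finset.prod_ite_zero, Finset.prod_const_one, Finset.mem_univ, true_imp_iff]
  have hB : (∀ u : Site L, ∀ k, (∀ v : Fin (r' + 1) × Fin (r' + 1), c (sh u v) ≠ k) →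
        s k (sh u (y0 r')) = s (k + 1) (sh u (y0 r'))) ↔
      ∀ k, ∀ x : Site L, (∀ u : Site L, c u = k → ∀ y : Fin (r' + 1) × Fin (r' + 1), sh u y ≠ x) →
        s k x = s (k + 1) x := by
    constructor
    · intro h k x hx
      have h1 := h ((x.1 - (r' : ZMod L), x.2 - (r' : ZMod L)) : Site L) k ?_
      · rw [sh_y0] at h1
        exact h1
      · intro v hv
        apply hx _ hv (co r' v)
        rw [sh_sh_co, sh_y0]
    · intro h u k hv
      apply h k
      intro v hvk y hy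
      have := eq_co r' u v y hy
      exact hv (co r' y) (this ▸ hvk)
  have hC : (∀ u : Site L, ∀ v, v ≠ y0 r' → c (sh u (y0 r')) ≠ c (sh u v)) ↔ Proper (r' + 1) c := by
    constructor
    · rintro h u v huv ⟨x, y, hxy⟩
      have h1 := h ((u.1 - (r' : ZMod L), u.2 - (r' : ZMod L)) : Site L)
        (⟨r' + x.1 - y.1, by omega⟩, ⟨r' + x.2 - y.2, by omega⟩)
      rw [sh_y0] at h1
      have h2 : sh ((u.1 - (r' : ZMod L), u.2 - (r' : ZMod L)) : Site L)
          ((⟨r' + x.1 - y.1, by omega⟩, ⟨r' + x.2 - y.2, by omega⟩) :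
            Fin (2 * r' + 1) × Fin (2 * r' + 1)) = v := by
        unfold sh at hxy ⊢
        rw [Prod.ext_iff] at hxy ⊢
        obtain ⟨e1, e2⟩ := hxy
        simp only at e1 e2 ⊢
        rw [Nat.cast_sub (by omega), Nat.cast_sub (by omega), Nat.cast_add, Nat.cast_add]
        constructor
        · linear_combination e1
        · linear_combination e2
      rw [h2] at h1
      apply h1
      intro hh
      apply huv
      rw [hh, sh_y0] at h2
      exact h2
    · intro h u w hw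
      apply h
      · intro he
        exact hw (sh_inj' r' hL u _ _ he).symm
      · refine ⟨(⟨w.1 - r', by omega⟩, ⟨w.2 - r', by omega⟩), (⟨r' - w.1, by omega⟩, ⟨r' - w.2, by omega⟩), ?_⟩
        unfold sh y0
        have e1 : r' + ((w.1 : ℕ) - r') = w.1 + (r' - w.1) := by omega
        have e2 : r' + ((w.2 : ℕ) - r') = w.2 + (r' - w.2) := by omega
        ext
        · simp only [add_assoc, ← Nat.cast_add, e1]
        · simp only [add_assoc, ← Nat.cast_add, e2]
  have hD : ∏ k, lay X c k (s k) (s (k + 1)) =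
      if ∀ k, ∀ x : Site L, (∀ u : Site L, c u = k → ∀ y : Fin (r' + 1) × Fin (r' + 1), sh u y ≠ x) →
        s k x = s (k + 1) x then
      ∏ u : Site L, X (fun y => s (c u) (sh u y)) (fun y => s (c u + 1) (sh u y)) else 0 := by
    unfold lay
    rw [Finset.prod_ite_zero, Finset.prod_comm]
    simp only [Finset.mem_univ, true_imp_iff, Finset.prod_ite_eq, if_true]
  rw [hD]
  simp only [hB, hC]
  by_cases h1 : Proper (r' + 1) c
  · simp only [if_pos h1, mul_one]
    split_ifs <;> simp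
  · simp only [if_neg h1, mul_zero]

end CQ947
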